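import Pool.Agent.TH337.HW.Core

/-!
`MP_5b99fd_an`: the best constant `C(α,n)` in the weighted Hardy inequality
`∫ (1+|x|²)^α |∇u|² ≥ C ∫ (1+|x|²)^(α-1) u²`, for every `n ≥ 3` and every `α ≠ -(n-2)/2`.
-/

set_option autoImplicit false

open MeasureTheory
open scoped ContDiff

namespace Pool.Agent.Results.MP_5b99fd_an.BestConstant

/-- The admissible functions: nonzero, smooth, compactly supported, and of zero mean with respect
to the weight `(1+|x|²)^(α-1)` when `α < -(n-2)/2`. -/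
structure Admissible (n : ℕ) (α : ℝ) (u : EuclideanSpace ℝ (Fin n) → ℝ) : Prop where
  smooth : ContDiff ℝ ∞ u
  compact_support : HasCompactSupport u
  nonzero : u ≠ 0
  zero_mean : α < -((n : ℝ) - 2) / 2 → ∫ x, (1 + ‖x‖ ^ 2) ^ (α - 1) * u x = 0

/-- The numerator `∫ (1+|x|²)^α |∇u|²`. -/
noncomputable def energy {n : ℕ} (α : ℝ) (u : EuclideanSpace ℝ (Fin n) → ℝ) : ℝ :=
  ∫ x, (1 + ‖x‖ ^ 2) ^ α * ‖gradient u x‖ ^ 2

/-- The denominator `∫ (1+|x|²)^(α-1) u²`. -/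
noncomputable def mass {n : ℕ} (α : ℝ) (u : EuclideanSpace ℝ (Fin n) → ℝ) : ℝ :=
  ∫ x, (1 + ‖x‖ ^ 2) ^ (α - 1) * u x ^ 2

/-- The best constant: the infimum of the quotients over all admissible functions. -/
noncomputable def bestC (α : ℝ) (n : ℕ) : ℝ :=
  sInf {q : ℝ | ∃ u : EuclideanSpace ℝ (Fin n) → ℝ, Admissible n α u ∧ q = energy α u / mass α u}

open Pool.Agent.TH337.HW

lemma energy_eq {n : ℕ} (α : ℝ) (u : E n → ℝ) :
    energy α u = ∫ x, rho x ^ α * ‖fderiv ℝ u x‖ ^ 2 := by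
  unfold energy
  congr 1
  ext x
  rw [norm_gradient]
  rfl

lemma mass_eq {n : ℕ} (α : ℝ) (u : E n → ℝ) :
    mass α u = ∫ x, rho x ^ (α - 1) * u x ^ 2 := rfl

lemma mass_pos {n : ℕ} {α : ℝ} {u : E n → ℝ} (h : Admissible n α u) : 0 < mass α u := by
  obtain ⟨x, hx⟩ := Function.ne_iff.1 h.nonzero
  have hx' : u x ≠ 0 := hx
  rw [mass_eq]
  refine Continuous.integral_pos_of_hasCompactSupport_nonneg_nonzero (x := x)
    ((rpow_cont _).mul (h.smooth.continuous.pow 2)) (hcs_sq h.compact_support).mul_left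
    (fun x => mul_nonneg (Real.rpow_nonneg (rho_pos x).le _) (sq_nonneg _)) ?_
  exact mul_ne_zero (Real.rpow_pos_of_pos (rho_pos x) _).ne' (pow_ne_zero _ hx')

/-- The two bounds for the infimum. -/
lemma core {n : ℕ} {α Λ : ℝ} (h1 : ∀ u : E n → ℝ, Admissible n α u → Λ * mass α u ≤ energy α u)
    (h2 : ∀ C : ℝ, (∀ u : E n → ℝ, Admissible n α u → C * mass α u ≤ energy α u) → C ≤ Λ) :
    bestC α n = Λ ∧ IsGreatest {c : ℝ | ∀ u : E n → ℝ, Admissible n α u →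
      c * mass α u ≤ energy α u} (bestC α n) := by
  have hne : {q : ℝ | ∃ u : E n → ℝ, Admissible n α u ∧ q = energy α u / mass α u}.Nonempty := by
    by_contra hcon
    have h3 := h2 (Λ + 1) (fun u hu => by
      exfalso
      exact hcon ⟨_, u, hu, rfl⟩)
    linarith
  have hval : bestC α n = Λ := by
    refine le_antisymm ?_ ?_
    · refine h2 _ fun u hu => ?_
      have hb : BddBelow {q : ℝ | ∃ u : E n → ℝ, Admissible n α u ∧ q = energy α u / mass α u} := by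
        refine ⟨Λ, ?_⟩
        rintro q ⟨v, hv, rfl⟩
        rw [le_div_iff₀ (mass_pos hv)]
        exact h1 v hv
      have := csInf_le hb ⟨u, hu, rfl⟩
      rwa [le_div_iff₀ (mass_pos hu)] at this
    · refine le_csInf hne ?_
      rintro q ⟨v, hv, rfl⟩
      rw [le_div_iff₀ (mass_pos hv)]
      exact h1 v hv
  refine ⟨hval, ?_⟩
  rw [hval]
  exact ⟨h1, fun C hC => h2 C hC⟩

lemma ofA {n : ℕ} {α Λ : ℝ} (hα : -((n : ℝ) - 2) / 2 < α)
    (h : HypA n α Λ ∧ ∀ C, HypA n α C → C ≤ Λ) :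
    bestC α n = Λ ∧ IsGreatest {c : ℝ | ∀ u : E n → ℝ, Admissible n α u →
      c * mass α u ≤ energy α u} (bestC α n) := by
  refine core (fun u hu => ?_) (fun C hC => ?_)
  · rw [mass_eq, energy_eq]
    exact h.1 u hu.smooth hu.compact_support
  · refine h.2 C fun u hu hc => ?_
    by_cases h0 : u = 0
    · subst h0
      simp
    · have := hC u ⟨hu, hc, h0, fun h' => absurd h' (not_lt.2 hα.le)⟩
      rwa [mass_eq, energy_eq] at this

lemma ofB {n : ℕ} {α Λ : ℝ} (hα : α < -((n : ℝ) - 2) / 2)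
    (h : Hyp n α Λ ∧ ∀ C, Hyp n α C → C ≤ Λ) :
    bestC α n = Λ ∧ IsGreatest {c : ℝ | ∀ u : E n → ℝ, Admissible n α u →
      c * mass α u ≤ energy α u} (bestC α n) := by
  refine core (fun u hu => ?_) (fun C hC => ?_)
  · rw [mass_eq, energy_eq]
    exact h.1 u hu.smooth hu.compact_support (hu.zero_mean hα)
  · refine h.2 C fun u hu hc hm => ?_
    by_cases h0 : u = 0
    · subst h0
      simp
    · have := hC u ⟨hu, hc, h0, fun _ => hm⟩
      rwa [mass_eq, energy_eq] at this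

/-- The best constant for every `n ≥ 3` and every `α ≠ -(n-2)/2`. -/
theorem result (n : ℕ) (hn : 3 ≤ n) (α : ℝ) (hα : α ≠ -((n : ℝ) - 2) / 2) :
    (α ≤ -(n : ℝ) → bestC α n = -2 * α) ∧
    (-(n : ℝ) ≤ α → α ≤ -((n : ℝ) + 2) / 2 → bestC α n = -4 * α - 2 * n) ∧
    (-((n : ℝ) + 2) / 2 ≤ α → α ≤ 1 + (n : ℝ) / 2 → bestC α n = ((n : ℝ) + 2 * α - 2) ^ 2 / 4) ∧
    (1 + (n : ℝ) / 2 ≤ α → bestC α n = 2 * n * (α - 1)) ∧
    IsGreatest {c : ℝ | ∀ u : EuclideanSpace ℝ (Fin n) → ℝ, Admissible n α u →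
      c * mass α u ≤ energy α u} (bestC α n) := by
  have hn' : (3 : ℝ) ≤ n := by exact_mod_cast hn
  rcases lt_or_gt_of_ne hα with h | h
  · refine ⟨fun h1 => (ofB h (coreB hn h (Or.inl ⟨h1, rfl⟩))).1,
      fun h1 h2 => (ofB h (coreB hn h (Or.inr (Or.inl ⟨h1, h2, rfl⟩)))).1,
      fun h1 _ => (ofB h (coreB hn h (Or.inr (Or.inr ⟨h1, rfl⟩)))).1,
      fun h1 => absurd h1 (not_le.2 (by linarith)), ?_⟩
    rcases le_total α (-(n : ℝ)) with h1 | h1
    · exact (ofB h (coreB hn h (Or.inl ⟨h1, rfl⟩))).2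
    · rcases le_total α (-((n : ℝ) + 2) / 2) with h2 | h2
      · exact (ofB h (coreB hn h (Or.inr (Or.inl ⟨h1, h2, rfl⟩)))).2
      · exact (ofB h (coreB hn h (Or.inr (Or.inr ⟨h2, rfl⟩)))).2
  · refine ⟨fun h1 => absurd h1 (not_le.2 (by linarith)),
      fun _ h1 => absurd h1 (not_le.2 (by linarith)),
      fun _ h1 => (ofA h (coreA hn h (Or.inl ⟨h1, rfl⟩))).1,
      fun h1 => (ofA h (coreA hn h (Or.inr ⟨h1, rfl⟩))).1, ?_⟩
    rcases le_total α (1 + (n : ℝ) / 2) with h1 | h1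
    · exact (ofA h (coreA hn h (Or.inl ⟨h1, rfl⟩))).2
    · exact (ofA h (coreA hn h (Or.inr ⟨h1, rfl⟩))).2

end Pool.Agent.Results.MP_5b99fd_an.BestConstant
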